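import Pool.Agent.AEC.StmtsS

/-!
# Row S_TYP: the cardinality of `W τ T`, categoricity
-/

set_option autoImplicit false

open FirstOrder FirstOrder.Language Cardinal Set

universe u

namespace Pool.Agent.AEC.S.H3

/-- S_TYP -/
theorem typ : TypStmt.{u} := by
  intro L _ κ K τ hτ
  have h1 : ∀ T : Type u, κ < #T → #(W τ T) = #T := by
    intro T hT
    have h0 : ℵ₀ ≤ #T := K.aleph0_le.trans hT.le
    have hA : #τ.A ≤ #T := (mk_set_le τ.A).trans (τ.card.trans hT.le)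
    have hP : #{x : τ.P // x ∉ τ.A} ≤ #T := (mk_subtype_le _).trans (τ.card.trans hT.le)
    have hne : #τ.A ≠ 0 := by
      rw [Cardinal.mk_ne_zero_iff]
      exact τ.ne.to_subtype
    have e1 : #(W τ T) = #{x : τ.P // x ∉ τ.A} + #T * #τ.A := by
      have e2 : #(W τ T) = #({x : τ.P // x ∉ τ.A} ⊕ (T × τ.A)) := rfl
      rw [e2, Cardinal.mk_sum, Cardinal.mk_prod, Cardinal.lift_id, Cardinal.lift_id,
        Cardinal.lift_id, Cardinal.lift_id]
    rw [e1, Cardinal.mul_eq_left h0 hA hne, Cardinal.add_eq_right h0 hP]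
  refine ⟨h1, ?_⟩
  intro l hl hC M T hM hT
  have h2 : K.mem (W τ T) := K.dom (hτ T T (Function.Embedding.refl T) (hT ▸ hl.le))
  exact hC.2 ⟨W τ T, h2⟩ M ((h1 T (hT ▸ hl)).trans hT) hM

end Pool.Agent.AEC.S.H3
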